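import Mathlib

set_option autoImplicit false

/-!
# Ten nearly neighborly tetrahedra (MP_044cb4_co)

The facet planes of the ten tetrahedra are among seven planes which separate them and four further planes (each of
which contains a facet of one tetrahedron only). The coordinates of the vertices are multiplied by `13860`. Any two of the tetrahedra lie on different sides of one of the seven planes. The configuration was
found by a computer search, the verification is an exact computation with integers.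
-/

namespace Pool.Agent.Results.MP_044cb4_co.TenTetrahedra

/-- the space `ℝ^3` -/
abbrev R3 : Type := Fin 3 → ℝ

/-- the inner product -/
def dot (a x : R3) : ℝ := ∑ l, a l * x l

/-- the closed simplex with the vertices `v 0, v 1, v 2, v 3` -/
def simplex (v : Fin 4 → R3) : Set R3 := convexHull ℝ (Set.range v)

/-- the facet of the simplex opposite to the vertex `v m` -/
def facet (v : Fin 4 → R3) (m : Fin 4) : Set R3 := convexHull ℝ (v '' {k | k ≠ m})

/-- there is a plane which separates the simplices (they lie in opposite closed half-spaces) and contains a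
facet of each of them -/
def Adjacent (v w : Fin 4 → R3) : Prop :=
  ∃ (a : R3) (c : ℝ), a ≠ 0 ∧ simplex v ⊆ {x | dot a x ≤ c} ∧ simplex w ⊆ {x | c ≤ dot a x} ∧
    (∃ m, facet v m ⊆ {x | dot a x = c}) ∧ (∃ m, facet w m ⊆ {x | dot a x = c})

/-- a nearly neighborly family of `n` tetrahedra (nondegenerate closed simplices) in `ℝ^3` -/
def NearlyNeighborly (n : ℕ) (v : Fin n → Fin 4 → R3) : Prop :=
  (∀ i, AffineIndependent ℝ (v i)) ∧ ∀ i j, i ≠ j → simplex (v i) ≠ simplex (v j) ∧ Adjacent (v i) (v j)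

/-- integer coordinates of the vertices -/
def V : Fin 10 → Fin 4 → Fin 3 → ℤ :=
  ![![![3080, 1540, 20020], ![10080, 5040, 2520], ![12705, -8085, 10395], ![-7920, -3960, -1980]],
    ![![83160, 41580, -55440], ![-18480, -9240, -4620], ![22176, 11088, 5544], ![6930, -34650, 20790]],
    ![![12705, -8085, 10395], ![-28875, 33495, 51975], ![26565, -77385, 51975], ![-56595, 5775, -31185]],
    ![![20790, -20790, 6930], ![20790, -48510, 34650], ![13860, -13860, 13860], ![6930, -34650, 20790]],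
    ![![0, 0, 27720], ![10080, 5040, 2520], ![13860, -13860, 13860], ![22176, 11088, 5544]],
    ![![-7920, -3960, -1980], ![27720, 13860, 69300], ![27720, 13860, 6930], ![-97020, 13860, -55440]],
    ![![10080, 5040, 2520], ![27720, 13860, -41580], ![8316, 13860, -2772], ![27720, 13860, 6930]],
    ![![20790, -48510, 34650], ![20790, 6930, -20790], ![34650, -117810, 76230], ![-6930, -20790, 6930]],
    ![![27720, 13860, -41580], ![55440, 27720, -110880], ![0, 13860, 13860], ![27720, 13860, -13860]],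
    ![![0, 0, 27720], ![-27720, -13860, 97020], ![13860, -13860, 13860], ![27720, 13860, 0]]]

/-- normals of the seven planes -/
def A : Fin 7 → Fin 3 → ℤ :=
  ![![0, 2, 0], ![1, -1, -2], ![-1, -2, 1], ![-1, 0, -1], ![0, 2, 2], ![-1, 2, 0], ![2, 1, 1]]

/-- right hand sides -/
def C : Fin 7 → ℤ := ![27720, 0, 13860, -27720, -27720, 0, 27720]

/-- value of the linear form -/
def val (h : Fin 7) (x : Fin 3 → ℤ) : ℤ := A h 0 * x 0 + A h 1 * x 1 + A h 2 * x 2

/-- integer determinant of the edge vectors at the first vertex -/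
def dd (p : Fin 4 → Fin 3 → ℤ) : ℤ :=
  (p 1 0 - p 0 0) * ((p 2 1 - p 0 1) * (p 3 2 - p 0 2) - (p 2 2 - p 0 2) * (p 3 1 - p 0 1)) -
  (p 1 1 - p 0 1) * ((p 2 0 - p 0 0) * (p 3 2 - p 0 2) - (p 2 2 - p 0 2) * (p 3 0 - p 0 0)) +
  (p 1 2 - p 0 2) * ((p 2 0 - p 0 0) * (p 3 1 - p 0 1) - (p 2 1 - p 0 1) * (p 3 0 - p 0 0))

lemma dd_ne : ∀ i, dd (V i) ≠ 0 := by
  decide +kernel

lemma A_ne : ∀ h, ∃ l, A h l ≠ 0 := by
  decide +kernel

lemma sep : ∀ i j : Fin 10, i ≠ j → ∃ (h : Fin 7) (s : Bool),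
    (∀ k, (if s then 1 else -1) * val h (V i k) ≤ (if s then 1 else -1) * C h) ∧
    (∀ k, (if s then 1 else -1) * C h ≤ (if s then 1 else -1) * val h (V j k)) ∧
    (∃ m : Fin 4, ∀ k, k ≠ m → val h (V i k) = C h) ∧
    (∃ m : Fin 4, ∀ k, k ≠ m → val h (V j k) = C h) := by
  decide +kernel

lemma affInd (p : Fin 4 → Fin 3 → ℤ) (hd : dd p ≠ 0) :
    AffineIndependent ℝ (fun (k : Fin 4) (l : Fin 3) => ((p k l : ℤ) : ℝ)) := by
  rw [affineIndependent_iff_of_fintype]
  intro w hw hsum
  rw [Finset.weightedVSub_eq_linear_combination _ hw] at hsum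
  have e0 := congrFun hsum 0
  have e1 := congrFun hsum 1
  have e2 := congrFun hsum 2
  simp only [Finset.sum_apply, Pi.smul_apply, smul_eq_mul, Pi.zero_apply, Fin.sum_univ_four]
    at e0 e1 e2 hw
  have hd' : ((dd p : ℤ) : ℝ) ≠ 0 := by exact_mod_cast hd
  unfold dd at hd'
  push_cast at hd'
  have w1 : w 1 = 0 := by
    apply (mul_eq_zero.mp ?_).resolve_left hd'
    linear_combination
      (((p 2 1 : ℝ) - p 0 1) * ((p 3 2 : ℝ) - p 0 2) - ((p 2 2 : ℝ) - p 0 2) * ((p 3 1 : ℝ) - p 0 1)) * (e0 - p 0 0 * hw)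
      - (((p 2 0 : ℝ) - p 0 0) * ((p 3 2 : ℝ) - p 0 2) - ((p 2 2 : ℝ) - p 0 2) * ((p 3 0 : ℝ) - p 0 0)) * (e1 - p 0 1 * hw)
      + (((p 2 0 : ℝ) - p 0 0) * ((p 3 1 : ℝ) - p 0 1) - ((p 2 1 : ℝ) - p 0 1) * ((p 3 0 : ℝ) - p 0 0)) * (e2 - p 0 2 * hw)
  have w2 : w 2 = 0 := by
    apply (mul_eq_zero.mp ?_).resolve_left hd'
    linear_combination
      (((p 3 1 : ℝ) - p 0 1) * ((p 1 2 : ℝ) - p 0 2) - ((p 3 2 : ℝ) - p 0 2) * ((p 1 1 : ℝ) - p 0 1)) * (e0 - p 0 0 * hw)
      - (((p 3 0 : ℝ) - p 0 0) * ((p 1 2 : ℝ) - p 0 2) - ((p 3 2 : ℝ) - p 0 2) * ((p 1 0 : ℝ) - p 0 0)) * (e1 - p 0 1 * hw)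
      + (((p 3 0 : ℝ) - p 0 0) * ((p 1 1 : ℝ) - p 0 1) - ((p 3 1 : ℝ) - p 0 1) * ((p 1 0 : ℝ) - p 0 0)) * (e2 - p 0 2 * hw)
  have w3 : w 3 = 0 := by
    apply (mul_eq_zero.mp ?_).resolve_left hd'
    linear_combination
      (((p 1 1 : ℝ) - p 0 1) * ((p 2 2 : ℝ) - p 0 2) - ((p 1 2 : ℝ) - p 0 2) * ((p 2 1 : ℝ) - p 0 1)) * (e0 - p 0 0 * hw)
      - (((p 1 0 : ℝ) - p 0 0) * ((p 2 2 : ℝ) - p 0 2) - ((p 1 2 : ℝ) - p 0 2) * ((p 2 0 : ℝ) - p 0 0)) * (e1 - p 0 1 * hw)
      + (((p 1 0 : ℝ) - p 0 0) * ((p 2 1 : ℝ) - p 0 1) - ((p 1 1 : ℝ) - p 0 1) * ((p 2 0 : ℝ) - p 0 0)) * (e2 - p 0 2 * hw)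
  have w0 : w 0 = 0 := by
    rw [w1, w2, w3] at hw
    linarith
  intro i
  fin_cases i
  · exact w0
  · exact w1
  · exact w2
  · exact w3

lemma dot_add (a x y : R3) : dot a (x + y) = dot a x + dot a y := by
  simp [dot, Fin.sum_univ_three]; ring

lemma dot_smul (a x : R3) (t : ℝ) : dot a (t • x) = t * dot a x := by
  simp [dot, Fin.sum_univ_three]; ring

lemma convex_le (a : R3) (c : ℝ) : Convex ℝ {x | dot a x ≤ c} := by
  intro x hx y hy s t hs ht hst
  simp only [Set.mem_setOf_eq] at hx hy ⊢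
  rw [dot_add, dot_smul, dot_smul]
  calc s * dot a x + t * dot a y ≤ s * c + t * c := by gcongr
    _ = c := by rw [← add_mul, hst, one_mul]

lemma convex_ge (a : R3) (c : ℝ) : Convex ℝ {x | c ≤ dot a x} := by
  intro x hx y hy s t hs ht hst
  simp only [Set.mem_setOf_eq] at hx hy ⊢
  rw [dot_add, dot_smul, dot_smul]
  calc c = s * c + t * c := by rw [← add_mul, hst, one_mul]
    _ ≤ s * dot a x + t * dot a y := by gcongr

lemma convex_eq (a : R3) (c : ℝ) : Convex ℝ {x | dot a x = c} := by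
  intro x hx y hy s t hs ht hst
  simp only [Set.mem_setOf_eq] at hx hy ⊢
  rw [dot_add, dot_smul, dot_smul, hx, hy, ← add_mul, hst, one_mul]

/-- if two nondegenerate simplices are adjacent then they are different -/
lemma ne_of_adjacent {v w : Fin 4 → R3} (hv : AffineIndependent ℝ v) (h : Adjacent v w) :
    simplex v ≠ simplex w := by
  obtain ⟨a, c, ha, h1, h2, -, -⟩ := h
  intro he
  -- all the vertices of `v` are in the plane
  have h3 : ∀ k, dot a (v k) = c := by
    intro k
    have hk : v k ∈ simplex v := subset_convexHull ℝ _ ⟨k, rfl⟩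
    exact le_antisymm (h1 hk) (h2 (he ▸ hk))
  -- but they span the space
  have hspan : affineSpan ℝ (Set.range v) = ⊤ := by
    rw [hv.affineSpan_eq_top_iff_card_eq_finrank_add_one]
    simp
  have h4 : vectorSpan ℝ (Set.range v) = ⊤ := by
    rw [← direction_affineSpan, hspan, AffineSubspace.direction_top]
  have h5 : ∀ x ∈ vectorSpan ℝ (Set.range v), dot a x = 0 := by
    intro x hx
    rw [vectorSpan_def] at hx
    induction hx using Submodule.span_induction with
    | mem x hx =>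
      obtain ⟨p, ⟨i, rfl⟩, q, ⟨j, rfl⟩, rfl⟩ := hx
      have : dot a (v i -ᵥ v j) = dot a (v i) - dot a (v j) := by
        simp only [vsub_eq_sub, dot, Pi.sub_apply, Fin.sum_univ_three]; ring
      rw [this, h3, h3, sub_self]
    | zero => simp [dot]
    | add x y _ _ hx hy => rw [dot_add, hx, hy, add_zero]
    | smul t x _ hx => rw [dot_smul, hx, mul_zero]
  have h6 := h5 a (by rw [h4]; trivial)
  apply ha
  rw [dot, Fin.sum_univ_three] at h6
  have b0 := mul_self_nonneg (a 0)
  have b1 := mul_self_nonneg (a 1)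
  have b2 := mul_self_nonneg (a 2)
  have c0 : a 0 = 0 := mul_self_eq_zero.1 (le_antisymm (by linarith) b0)
  have c1 : a 1 = 0 := mul_self_eq_zero.1 (le_antisymm (by linarith) b1)
  have c2 : a 2 = 0 := mul_self_eq_zero.1 (le_antisymm (by linarith) b2)
  funext l
  fin_cases l
  · exact c0
  · exact c1
  · exact c2

/-- There are ten tetrahedra in `ℝ^3` which form a nearly neighborly family. -/
theorem result : ∃ v : Fin 10 → Fin 4 → R3, NearlyNeighborly 10 v := by
  refine ⟨fun i k l => ((V i k l : ℤ) : ℝ), fun i => affInd (V i) (dd_ne i), ?_⟩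
  intro i j hij
  have hadj : Adjacent (fun k l => ((V i k l : ℤ) : ℝ)) (fun k l => ((V j k l : ℤ) : ℝ)) := by
    obtain ⟨g, s, h1, h2, ⟨m1, h3⟩, ⟨m2, h4⟩⟩ := sep i j hij
    have key : ∀ x : Fin 3 → ℤ, dot (fun l => ((A g l : ℤ) : ℝ)) (fun l => ((x l : ℤ) : ℝ)) =
        ((val g x : ℤ) : ℝ) := by
      intro x
      rw [dot, Fin.sum_univ_three]
      simp only [val]
      push_cast
      ring
    have key2 : ∀ x : Fin 3 → ℤ, dot (fun l => -((A g l : ℤ) : ℝ)) (fun l => ((x l : ℤ) : ℝ)) =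
        -((val g x : ℤ) : ℝ) := by
      intro x
      rw [← key x, dot, dot, ← Finset.sum_neg_distrib]
      apply Finset.sum_congr rfl
      intro l _
      ring
    obtain ⟨l0, hl0⟩ := A_ne g
    cases s
    · refine ⟨fun l => -((A g l : ℤ) : ℝ), -((C g : ℤ) : ℝ), ?_, ?_, ?_, ⟨m1, ?_⟩, ⟨m2, ?_⟩⟩
      · intro h0
        have := congrFun h0 l0
        simp only [Pi.zero_apply, neg_eq_zero] at this
        exact hl0 (by exact_mod_cast this)
      · refine convexHull_min ?_ (convex_le _ _)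
        rintro _ ⟨k, rfl⟩
        show dot _ _ ≤ _
        rw [key2]
        have := h1 k
        simp at this
        have h5 : ((C g : ℤ) : ℝ) ≤ ((val g (V i k) : ℤ) : ℝ) := by exact_mod_cast this
        linarith
      · refine convexHull_min ?_ (convex_ge _ _)
        rintro _ ⟨k, rfl⟩
        show _ ≤ dot _ _
        rw [key2]
        have := h2 k
        simp at this
        have h5 : ((val g (V j k) : ℤ) : ℝ) ≤ ((C g : ℤ) : ℝ) := by exact_mod_cast this
        linarith
      · refine convexHull_min ?_ (convex_eq _ _)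
        rintro _ ⟨k, hk, rfl⟩
        show dot _ _ = _
        rw [key2, h3 k hk]
      · refine convexHull_min ?_ (convex_eq _ _)
        rintro _ ⟨k, hk, rfl⟩
        show dot _ _ = _
        rw [key2, h4 k hk]
    · refine ⟨fun l => ((A g l : ℤ) : ℝ), ((C g : ℤ) : ℝ), ?_, ?_, ?_, ⟨m1, ?_⟩, ⟨m2, ?_⟩⟩
      · intro h0
        have := congrFun h0 l0
        simp only [Pi.zero_apply] at this
        exact hl0 (by exact_mod_cast this)
      · refine convexHull_min ?_ (convex_le _ _)
        rintro _ ⟨k, rfl⟩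
        show dot _ _ ≤ _
        rw [key]
        have := h1 k
        simp at this
        exact_mod_cast this
      · refine convexHull_min ?_ (convex_ge _ _)
        rintro _ ⟨k, rfl⟩
        show _ ≤ dot _ _
        rw [key]
        have := h2 k
        simp at this
        exact_mod_cast this
      · refine convexHull_min ?_ (convex_eq _ _)
        rintro _ ⟨k, hk, rfl⟩
        show dot _ _ = _
        rw [key, h3 k hk]
      · refine convexHull_min ?_ (convex_eq _ _)
        rintro _ ⟨k, hk, rfl⟩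
        show dot _ _ = _
        rw [key, h4 k hk]
  exact ⟨ne_of_adjacent (affInd (V i) (dd_ne i)) hadj, hadj⟩

end Pool.Agent.Results.MP_044cb4_co.TenTetrahedra
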